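import Mathlib

set_option autoImplicit false

namespace Pool.Agent.Results.MP_8a65de_an.TwoPoints

open Filter Topology Set

section Defs
variable {X : Type} [TopologicalSpace X]

/-- `N_T(U,V)`. -/
def hit (T : X → X) (U V : Set X) : Set ℕ := {n | (U ∩ T^[n] ⁻¹' V).Nonempty}

/-- The family `𝒩_T`. -/
def famN (T : X → X) : Set (Set ℕ) :=
  {A | ∃ U V : Set X, IsOpen U ∧ U.Nonempty ∧ IsOpen V ∧ V.Nonempty ∧ hit T U V ⊆ A}

/-- `ω_{𝒩_T}(x)`. -/
def omegaN (T : X → X) (x : X) : Set X := ⋂ F ∈ famN T, closure ((fun i => T^[i] x) '' F)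

/-- The usual omega-limit set. -/
def omega (T : X → X) (y : X) : Set X := ⋂ n ≥ 1, closure ((fun k => T^[k] y) '' Ici n)

/-- `T × T` is topologically transitive. -/
def WeaklyMixing (T : X → X) : Prop :=
  ∀ W₁ W₂ : Set (X × X), IsOpen W₁ → W₁.Nonempty → IsOpen W₂ → W₂.Nonempty →
    (hit (Prod.map T T) W₁ W₂).Nonempty

/-- Compact metrizable space with more than one point and no isolated point, continuous surjection. -/
def IsSystem (T : X → X) : Prop :=
  CompactSpace X ∧ TopologicalSpace.MetrizableSpace X ∧ Nontrivial X ∧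
    (∀ x : X, ¬ IsOpen ({x} : Set X)) ∧ Continuous T ∧ Function.Surjective T
end Defs

/-- Spacing shift: two occurrences of the symbol `2` are never at distance a power of two. -/
def Sp : Type := {x : ℕ → Fin 3 // ∀ i d, x i = 2 → x (i + 2 ^ d) ≠ 2}

instance : TopologicalSpace Sp := inferInstanceAs (TopologicalSpace (Subtype _))

/-- The shift. -/
def sh (x : Sp) : Sp := ⟨fun i => x.1 (i + 1), fun i d h => by
  have := x.2 (i + 1) d h
  rwa [Nat.add_right_comm] at this⟩

theorem sh_iter (n : ℕ) (x : Sp) (i : ℕ) : (sh^[n] x).1 i = x.1 (i + n) := by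
  induction n generalizing x with
  | zero => rfl
  | succ n ih => rw [Function.iterate_succ_apply, ih]; rfl

theorem cont (i : ℕ) : Continuous fun x : Sp => x.1 i := (continuous_apply i).comp continuous_subtype_val

theorem cyl {U : Set Sp} (hU : IsOpen U) {x : Sp} (hx : x ∈ U) :
    ∃ L, ∀ y : Sp, (∀ i < L, y.1 i = x.1 i) → y ∈ U := by
  by_contra h
  push Not at h
  choose y hy1 hy2 using h
  have : Tendsto y atTop (𝓝 x) := by
    refine tendsto_subtype_rng.mpr (tendsto_pi_nhds.mpr fun i => tendsto_const_nhds.congr' ?_)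
    filter_upwards [eventually_gt_atTop i] with L hL using (hy1 L i hL).symm
  obtain ⟨L, hL⟩ := (this.eventually (hU.mem_nhds hx)).exists
  exact hy2 L hL

theorem cyl_open (x : ℕ → Fin 3) (s : Finset ℕ) : IsOpen {y : Sp | ∀ i ∈ s, y.1 i = x i} := by
  rw [ofPred_forall (ι := ℕ)]
  simp only [ofPred_forall]
  exact isOpen_biInter_finset fun i _ => (isOpen_discrete {x i}).preimage (cont i)

theorem gap (k d m : ℕ) (h1 : 2 ^ k < m) (h2 : m < 2 ^ (k + 1)) : m ≠ 2 ^ d := by
  rintro rfl
  have a := (Nat.pow_lt_pow_iff_right (by norm_num)).mp h1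
  have b := (Nat.pow_lt_pow_iff_right (by norm_num)).mp h2
  omega

theorem glue (u v : Sp) (L k n : ℕ) (h1 : 2 ^ k + L ≤ n) (h2 : n + L ≤ 2 ^ (k + 1)) :
    ∃ w : Sp, (∀ i < L, w.1 i = u.1 i) ∧ ∀ i < L, (sh^[n] w).1 i = v.1 i := by
  have hp : 0 < 2 ^ k := by positivity
  refine ⟨⟨fun i => if i < L then u.1 i else if n ≤ i ∧ i < n + L then v.1 (i - n) else 0,
    fun i d h h' => ?_⟩, fun i hi => by simp [hi], fun i hi => ?_⟩
  · have hd : 0 < 2 ^ d := by positivity
    simp only at h h'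
    split_ifs at h h' with a b c e f g
    · exact u.2 i d h h'
    · exact gap k d (2 ^ d) (by omega) (by omega) rfl
    · simp at h'
    · omega
    · rw [show i + 2 ^ d - n = i - n + 2 ^ d by omega] at h'
      exact v.2 _ d h h'
    · simp at h'
    all_goals simp at h
  · rw [sh_iter]
    simp only
    rw [if_neg (by omega), if_pos (by omega), Nat.add_sub_cancel]

theorem hit_mem {U V : Set Sp} (hU : IsOpen U) (hU' : U.Nonempty) (hV : IsOpen V) (hV' : V.Nonempty) :
    ∃ L, ∀ k n, 2 ^ k + L ≤ n → n + L ≤ 2 ^ (k + 1) → n ∈ hit sh U V := by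
  obtain ⟨u, hu⟩ := hU'
  obtain ⟨v, hv⟩ := hV'
  obtain ⟨a, ha⟩ := cyl hU hu
  obtain ⟨b, hb⟩ := cyl hV hv
  refine ⟨a + b, fun k n h1 h2 => ?_⟩
  obtain ⟨w, hw1, hw2⟩ := glue u v _ k n h1 h2
  exact ⟨w, ha w fun i hi => hw1 i (by omega), hb _ fun i hi => hw2 i (by omega)⟩

/-- constant points -/
def cst (b : Bool) : Sp := ⟨fun _ => if b then 1 else 0, fun _ _ h => by cases b <;> simp at h⟩

/-- the point `x` -/
def pt : Sp := ⟨fun i => if Nat.log 2 i % 2 = 1 then 1 else 0, fun i _ h => by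
  simp only at h; split_ifs at h <;> simp at h⟩

theorem omegaN_pt : omegaN sh pt = {cst true, cst false} := by
  ext z
  simp only [omegaN, mem_iInter]
  constructor
  · intro h
    have two : ∀ k, ∃ w : Sp, w.1 k = 2 := fun k =>
      ⟨⟨fun i => if i = k then 2 else 0, fun i d h h' => by
        have : 0 < 2 ^ d := by positivity
        simp only at h h'
        split_ifs at h h' <;> omega⟩, by simp⟩
    have op : ∀ k, IsOpen {w : Sp | w.1 k = 2} := fun k => (isOpen_discrete {2}).preimage (cont k)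
    have key : ∀ k, z.1 k ≠ 2 ∧ z.1 (k + 1) = z.1 k := fun k => by
      have h1 := h _ ⟨_, _, op 0, two 0, op (k + 1), two _, subset_rfl⟩
      obtain ⟨_, hz, n, ⟨w, hw0, hw1⟩, rfl⟩ := mem_closure_iff.mp h1 _ (cyl_open z.1 {k, k + 1})
        fun _ _ => rfl
      have e0 := hz k (by simp)
      have e1 := hz (k + 1) (by simp)
      simp only [sh_iter] at e0 e1
      have hw2 : w.1 (k + 1 + n) = 2 := (sh_iter n w _).symm.trans hw1
      have hne : ∀ d, k + 1 + n ≠ 2 ^ d := fun d hd => w.2 0 d hw0 (by rw [zero_add, ← hd]; exact hw2)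
      rw [← e0, ← e1]
      refine ⟨by simp only [pt]; split_ifs <;> simp, ?_⟩
      have hl : Nat.log 2 (k + 1 + n) = Nat.log 2 (k + n) := by
        rcases Nat.eq_zero_or_pos (k + n) with h0 | h0
        · exact absurd (by omega) (hne 0)
        · have a := Nat.pow_log_le_self 2 h0.ne'
          have b := Nat.lt_pow_succ_log_self one_lt_two (k + n)
          have c := hne (Nat.log 2 (k + n) + 1)
          exact Nat.log_eq_of_pow_le_of_lt_pow (by omega) (by rw [Nat.succ_eq_add_one] at b; omega)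
      simp only [pt, hl]
    have hc : ∀ k, z.1 k = z.1 0 := fun k => by
      induction k with
      | zero => rfl
      | succ k ih => rw [(key k).2, ih]
    have h0 := (key 0).1
    have : z.1 0 = 1 ∨ z.1 0 = 0 := by revert h0; generalize z.1 0 = t; revert t; decide
    rcases this with h1 | h1
    · exact Or.inl (Subtype.ext (funext fun k => (hc k).trans h1))
    · exact Or.inr (Subtype.ext (funext fun k => (hc k).trans h1))
  · rintro hz F ⟨U, V, hU, hU', hV, hV', hF⟩
    obtain ⟨L, hL⟩ := hit_mem hU hU' hV hV'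
    rw [mem_closure_iff]
    intro G hG hzG
    obtain ⟨M, hM⟩ := cyl hG hzG
    obtain ⟨b, rfl⟩ : ∃ b, z = cst b := by rcases hz with h | h <;> exact ⟨_, h⟩
    set k := 2 * (L + M) + if b then 1 else 0 with hk
    have h1 : k < 2 ^ k := Nat.lt_two_pow_self
    have h2 : 2 * (L + M) ≤ k := by omega
    refine ⟨_, hM _ fun i hi => ?_, 2 ^ k + L, hF (hL k _ le_rfl (by omega)), rfl⟩
    have hl : Nat.log 2 (i + (2 ^ k + L)) = k :=
      Nat.log_eq_of_pow_le_of_lt_pow (by omega) (by omega)
    simp only [sh_iter, pt, hl, cst]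
    cases b <;> simp [hk]

theorem result : IsSystem sh ∧ WeaklyMixing sh ∧ ∃ x : Sp, ∀ y : Sp, omega sh y ≠ omegaN sh x := by
  have hcl : IsClosed {x : ℕ → Fin 3 | ∀ i d, x i = 2 → x (i + 2 ^ d) ≠ 2} := by
    simp only [ofPred_forall]
    refine isClosed_iInter fun i => isClosed_iInter fun d => ?_
    exact (isClosed_discrete {p : Fin 3 × Fin 3 | p.1 = 2 → p.2 ≠ 2}).preimage
      (f := fun x : ℕ → Fin 3 => (x i, x (i + 2 ^ d))) (by fun_prop)
  have hcs : CompactSpace Sp := isCompact_iff_compactSpace.mp hcl.isCompact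
  have hne : cst true ≠ cst false := fun h => by
    have := congrFun (congrArg Subtype.val h) 0
    simp [cst] at this
  refine ⟨⟨hcs, TopologicalSpace.MetrizableSpace.subtype _, ⟨_, _, hne⟩,
    fun x hx => ?_, (continuous_pi fun i => cont (i + 1)).subtype_mk _, fun x => ?_⟩, ?_, pt, ?_⟩
  · obtain ⟨L, hL⟩ := cyl hx rfl
    have : ∀ b : Bool, ∃ w : Sp, (∀ i < L, w.1 i = x.1 i) ∧ w.1 L = (cst b).1 0 := fun b =>
      ⟨⟨fun i => if i < L then x.1 i else (cst b).1 0, fun i d h h' => by
        have : 0 < 2 ^ d := by positivity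
        simp only at h h'
        split_ifs at h h'
        · exact x.2 i d h h'
        · cases b <;> simp [cst] at h'
        · omega
        · cases b <;> simp [cst] at h⟩, fun i hi => by simp [hi], by simp⟩
    obtain ⟨w, hw, hw'⟩ := this true
    obtain ⟨v, hv, hv'⟩ := this false
    rw [hL w hw] at hw'
    rw [hL v hv, hw'] at hv'
    simp [cst] at hv'
  · refine ⟨⟨fun i => if i = 0 then 0 else x.1 (i - 1), fun i d h h' => ?_⟩, Subtype.ext ?_⟩
    · have : 0 < 2 ^ d := by positivity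
      simp only at h h'
      split_ifs at h h'
      · simp at h
      · simp at h
      · omega
      · rw [show i + 2 ^ d - 1 = i - 1 + 2 ^ d by omega] at h'
        exact x.2 _ d h h'
    · funext i; simp [sh]
  · rintro W₁ W₂ h1 ⟨⟨a, b⟩, hab⟩ h2 ⟨⟨c, d⟩, hcd⟩
    obtain ⟨U₁, U₂, o1, o2, ha, hb, s1⟩ := isOpen_prod_iff.mp h1 a b hab
    obtain ⟨V₁, V₂, o3, o4, hc, hd, s2⟩ := isOpen_prod_iff.mp h2 c d hcd
    obtain ⟨L, hL⟩ := hit_mem o1 ⟨a, ha⟩ o3 ⟨c, hc⟩
    obtain ⟨M, hM⟩ := hit_mem o2 ⟨b, hb⟩ o4 ⟨d, hd⟩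
    have h3 : 2 * (L + M) < 2 ^ (2 * (L + M)) := Nat.lt_two_pow_self
    obtain ⟨w, hw1, hw2⟩ := hL (2 * (L + M)) (2 ^ (2 * (L + M)) + (L + M)) (by omega) (by omega)
    obtain ⟨v, hv1, hv2⟩ := hM (2 * (L + M)) (2 ^ (2 * (L + M)) + (L + M)) (by omega) (by omega)
    refine ⟨2 ^ (2 * (L + M)) + (L + M), (w, v), s1 ⟨hw1, hv1⟩, s2 ?_⟩
    rw [Prod.map_iterate]
    exact ⟨hw2, hv2⟩
  · intro y hy
    rw [omegaN_pt] at hy
    have hom : omega sh y = {z | MapClusterPt z atTop fun k => sh^[k] y} := by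
      ext z
      simp only [omega, mem_iInter, mem_ofPred_eq, mapClusterPt_iff_frequently, frequently_atTop]
      constructor
      · intro h s hs n
        obtain ⟨_, h1, k, hk, rfl⟩ := mem_closure_iff_nhds.mp (h (n + 1) (by omega)) s hs
        exact ⟨k, by simp only [mem_Ici] at hk; omega, h1⟩
      · intro h n _
        refine mem_closure_iff_nhds.mpr fun s hs => ?_
        obtain ⟨k, hk, h1⟩ := h s hs n
        exact ⟨_, h1, k, hk, rfl⟩
    have hev : ∀ᶠ k in atTop, y.1 (k + 1) = y.1 k := by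
      by_contra h
      have hK : IsClosed {w : Sp | w.1 1 ≠ w.1 0} :=
        (isClosed_discrete {p : Fin 3 × Fin 3 | p.1 ≠ p.2}).preimage ((cont 1).prodMk (cont 0))
      obtain ⟨z, hz, hz'⟩ := hK.isCompact.exists_mapClusterPt_of_frequently
        (f := fun k => sh^[k] y) (l := atTop) ((not_eventually.mp h).mono fun k hk => by
          simpa only [mem_ofPred_eq, sh_iter, zero_add, add_comm 1 k] using hk)
      have : z ∈ omega sh y := hom ▸ hz'
      rw [hy] at this
      rcases this with rfl | rfl <;> exact hz rfl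
    obtain ⟨N, hN⟩ := eventually_atTop.mp hev
    have hc : ∀ k ≥ N, y.1 k = y.1 N := fun k hk => by
      induction k, hk using Nat.le_induction with
      | base => rfl
      | succ k hk ih => rw [hN k hk, ih]
    have hb : ∀ b, (cst b).1 0 = y.1 N := fun b => by
      have h1 : cst b ∈ omega sh y := by rw [hy]; cases b <;> simp
      rw [hom, mem_ofPred_eq, mapClusterPt_iff_frequently] at h1
      obtain ⟨k, hk, h2⟩ := frequently_atTop.mp
        (h1 _ ((cyl_open (cst b).1 {0}).mem_nhds fun _ _ => rfl)) N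
      have := h2 0 (by simp)
      rw [sh_iter, zero_add] at this
      rw [← this, hc k hk]
    have := (hb true).trans (hb false).symm
    simp [cst] at this

end Pool.Agent.Results.MP_8a65de_an.TwoPoints
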